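import Pool.Agent.H670R5.Main

/-!
# Computing the obstacle number is NP-hard

The definitions are in `Pool.Agent.H670R5.Defs` (polygons, sides of a polygon),
`Pool.Agent.H670R5.Fin` (closed polygonal regions, representations by several obstacles, the
decision problem `ObsNumLE`), `Pool.Agent.H679R2.Oct.Defs` (graphs given by a list of vertices and
a list of edges) and `Pool.Agent.NPC.Defs` (NP-hardness).  For a sketch of the proof see
`Pool.Agent.Results.MP_3b0ea9_lc.SingleObstacleNPHard`.
-/

namespace Pool.Agent.Results.MP_465931_lc.ObstacleNumberNPHard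

open Pool.Agent.NPC Pool.Agent.H679R2 Pool.Agent.H670R5

theorem closedPolygon_preconnected (P : Set Pl) (h : ClosedPolygon P) : IsPreconnected P := by
  obtain ⟨l, C, -, h2, -, rfl⟩ := h
  exact (side_preconnected h2).closure

/-- OBSTACLE NUMBER is NP-hard, for closed polygonal obstacles (closures of interiors of simple
polygons).  More generally, for every class `𝒪` of connected obstacles which contains these closed
polygons, it is NP-hard to decide whether a graph has a representation with at most `k` obstacles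
of the class `𝒪`, already for the fixed number `k = 1`. -/
theorem result : NPHardP (ObsNumLE ClosedPolygon) ∧
    ∀ 𝒪 : Set Pl → Prop, (∀ P, ClosedPolygon P → 𝒪 P) → (∀ P, 𝒪 P → IsPreconnected P) →
      NPHardP (ObsNumLE 𝒪) ∧ NPHardP (fun I => ObsNumLE 𝒪 (I, 1)) := by
  have key : ∀ 𝒪 : Set Pl → Prop, (∀ P, ClosedPolygon P → 𝒪 P) → (∀ P, 𝒪 P → IsPreconnected P) →
      NPHardP (ObsNumLE 𝒪) ∧ NPHardP (fun I => ObsNumLE 𝒪 (I, 1)) := fun 𝒪 h1 h2 =>
    ⟨(hard_obs allSt 𝒪 h1 h2).toNPHardP,
      (hardI_SAT3.trans allSt.poly (iff_obs allSt 𝒪 h1 h2)).toNPHardP⟩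
  exact ⟨(key _ (fun _ h => h) closedPolygon_preconnected).1, key⟩

end Pool.Agent.Results.MP_465931_lc.ObstacleNumberNPHard
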